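import Mathlib
import Pool.Agent.H56.BN.Fin5

/-!
# MP_6a1ee7_an: both alternatives of Q1 occur, for all `1 ≤ k ≤ N - 3` and all `m ≥ 1`

Here `N = k + 1 + d`, so that `k ≤ N - 3` means `2 ≤ d`, and `pex d = 2 (d + 1) / (d - 1)` is
`2 (N - k) / (N - k - 2)`.

* First domain: a thin smoothed box far from the axis, elongated in the `x` direction. The gap
  between the eigenvalues is so small, compared with the volume, that the dual supremum exceeds
  the compactness level for every `l` in the gap.
* Second domain: a box reaching close to the axis, with a narrow tip there. The Sobolev quotient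
  concentrates at the tip, and a Hardy inequality for functions near the axis shows that the
  dual supremum is not attained when `l` is just above the eigenvalue.
-/

set_option autoImplicit false

namespace Pool.Agent.Results.MP_6a1ee7_an.BothAlternatives

open Pool.Agent.H56.BN

theorem result (k d m : ℕ) (hk : 1 ≤ k) (hd : 2 ≤ d) (hm : 1 ≤ m) :
    (∃ S : Set (PP d), Adm S ∧ lam k S m < lam k S (m + 1) ∧
      (∀ l, lam k S m < l → l < lam k S (m + 1) → HasGS k S l) ∧
      ∀ s, IsThreshold k S m s ↔ s = lam k S m) ∧
    ∃ S : Set (PP d), Adm S ∧ lam k S m < lam k S (m + 1) ∧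
      ∃ δ > 0, (∀ l, lam k S m < l → l < lam k S m + δ → ¬ HasGS k S l) ∧
        ∀ s, IsThreshold k S m s → lam k S m + δ ≤ s :=
  final_main k d m hk hd hm

end Pool.Agent.Results.MP_6a1ee7_an.BothAlternatives
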